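import Pool.Agent.Helper64.LN.GoalsA

set_option autoImplicit false

/-! Project LN, packet H3: symmetry, reflexivity and triangle inequality of the projection
distance. -/

open Pool.Agent.Helper64.LN

namespace Pool.Agent.Helper24.LN

variable {H : Type} [Group H]

theorem cr_conj {D : Subgroup H} {Sp : H → H → H → Prop} (hG : GF D Sp) {g : H} (hg : g ∈ D)
    {a b : H} (h : Cr Sp a b) : Cr Sp (g * a * g⁻¹) (g * b * g⁻¹) := by
  have := hG.conj g hg a b b⁻¹ h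
  have e : (g * b * g⁻¹)⁻¹ = g * b⁻¹ * g⁻¹ := by group
  unfold Cr
  rw [e]
  exact this

theorem cr_flip {D : Subgroup H} {Sp : H → H → H → Prop} (hG : GF D Sp) {a b c : H}
    (ha : a ∈ D) (hb : b ∈ D) (hc : c ∈ D) (k : ℤ)
    (h : Cr Sp (a ^ k * b * (a ^ k)⁻¹) c) : Cr Sp (a ^ (-k) * c * (a ^ (-k))⁻¹) b := by
  have hk : a ^ (-k) ∈ D := D.zpow_mem ha _
  have h1 := cr_conj hG hk h
  have e : a ^ (-k) * (a ^ k * b * (a ^ k)⁻¹) * (a ^ (-k))⁻¹ = b := by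
    rw [zpow_neg]; group
  rw [e] at h1
  exact hG.symm _ hb _ (D.mul_mem (D.mul_mem hk hc) (D.inv_mem hk)) h1

theorem card_flip {D : Subgroup H} {Sp : H → H → H → Prop} (hG : GF D Sp) {a b c : H}
    (ha : a ∈ D) (hb : b ∈ D) (hc : c ∈ D) :
    Nat.card {k : ℤ // Cr Sp (a ^ k * b * (a ^ k)⁻¹) c} =
      Nat.card {k : ℤ // Cr Sp (a ^ k * c * (a ^ k)⁻¹) b} := by
  refine Nat.card_congr
    { toFun := fun k => ⟨-k.1, cr_flip hG ha hb hc k.1 k.2⟩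
      invFun := fun k => ⟨-k.1, cr_flip hG ha hc hb k.1 k.2⟩
      left_inv := fun k => by simp
      right_inv := fun k => by simp }

/-- PACKET H3. -/
theorem goalH3 (h1 : GoalH1) : GoalH3 := by
  intro H _ D Sp l r sd Y hG hY
  refine ⟨?_, ?_, ?_⟩
  · intro x hx y hy z hz
    unfold dY
    congr 2
    ext n
    constructor
    · rintro ⟨a, ha, b, hb, c, hc, hab, hac, rfl⟩
      exact ⟨a, ha, c, hc, b, hb, hac, hab,
        card_flip hG.toGF (hY.sub x hx a ha) (hY.sub y hy b hb) (hY.sub z hz c hc)⟩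
    · rintro ⟨a, ha, b, hb, c, hc, hab, hac, rfl⟩
      exact ⟨a, ha, c, hc, b, hb, hac, hab,
        card_flip hG.toGF (hY.sub x hx a ha) (hY.sub z hz b hb) (hY.sub y hy c hc)⟩
  · intro x hx y hy
    have h0 : ∀ n ∈ {n : ℕ | ∃ a ∈ x, ∃ b ∈ y, ∃ c ∈ y, Cr Sp a b ∧ Cr Sp a c ∧
        n = Nat.card {k : ℤ // Cr Sp (a ^ k * b * (a ^ k)⁻¹) c}}, n ≤ 0 := by
      rintro n ⟨a, ha, b, hb, c, hc, -, -, rfl⟩
      have : IsEmpty {k : ℤ // Cr Sp (a ^ k * b * (a ^ k)⁻¹) c} :=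
        ⟨fun k => hY.simple y hy _
          (hY.conj y hy b hb _ (D.zpow_mem (hY.sub x hx a ha) k.1)) c hc k.2⟩
      simp
    have h2 : sSup {n : ℕ | ∃ a ∈ x, ∃ b ∈ y, ∃ c ∈ y, Cr Sp a b ∧ Cr Sp a c ∧
        n = Nat.card {k : ℤ // Cr Sp (a ^ k * b * (a ^ k)⁻¹) c}} ≤ 0 := by
      rcases Set.eq_empty_or_nonempty {n : ℕ | ∃ a ∈ x, ∃ b ∈ y, ∃ c ∈ y, Cr Sp a b ∧ Cr Sp a c ∧
        n = Nat.card {k : ℤ // Cr Sp (a ^ k * b * (a ^ k)⁻¹) c}} with he | hne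
      · rw [he]; simp
      · exact csSup_le hne h0
    unfold dY
    omega
  · intro x hx y hy z hz w hw hxy hxz hxw
    obtain ⟨hA, hB, -⟩ := h1 H D Sp l r sd Y hG hY
    obtain ⟨a, ha⟩ := hY.ne x hx
    obtain ⟨b, hb, hab⟩ := hA x hx y hy hxy a ha
    obtain ⟨c, hc, hac⟩ := hA x hx z hz hxz a ha
    obtain ⟨d, hd, had⟩ := hA x hx w hw hxw a ha
    have e1 := (hB x hx y hy w hw hxy hxw a ha b hb d hd hab had).2
    have e2 := (hB x hx y hy z hz hxy hxz a ha b hb c hc hab hac).1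
    have e3 := (hB x hx z hz w hw hxz hxw a ha c hc d hd hac had).1
    have e4 := abs_sub_le (tw l r a b) (tw l r a c) (tw l r a d)
    have : (dY Sp x y w : ℝ) ≤ ((dY Sp x y z + dY Sp x z w : ℕ) : ℝ) := by
      push_cast
      linarith
    exact_mod_cast this

end Pool.Agent.Helper24.LN
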