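import Pool.Agent.Helper64.LN.GoalsA

set_option autoImplicit false

/-! Project LN, packet R3. -/

open Pool.Agent.Helper64.LN

namespace Pool.Agent.Helper24.LN

variable {H : Type} [Group H]

private theorem cr_conj' {D : Subgroup H} {Sp : H → H → H → Prop} (hG : GF D Sp) {g : H}
    (hg : g ∈ D) {a b : H} (h : Cr Sp a b) : Cr Sp (g * a * g⁻¹) (g * b * g⁻¹) := by
  have := hG.conj g hg a b b⁻¹ h
  have e : (g * b * g⁻¹)⁻¹ = g * b⁻¹ * g⁻¹ := by group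
  unfold Cr
  rw [e]
  exact this

private theorem mem_conj {D : Subgroup H} {g a : H} (hg : g ∈ D) (ha : a ∈ D) :
    g * a * g⁻¹ ∈ D := D.mul_mem (D.mul_mem hg ha) (D.inv_mem hg)

private theorem hp_conj {D : Subgroup H} {Sp : H → H → H → Prop} (hG : GF D Sp) {g : H}
    (hg : g ∈ D) {a : H} (h : Hp D Sp a) : Hp D Sp (g * a * g⁻¹) := by
  obtain ⟨e, he, hae⟩ := h
  exact ⟨g * e * g⁻¹, mem_conj hg he, cr_conj' hG hg hae⟩

private theorem nc_conj {g a b : H} (h : Nc a b) : Nc (g * a * g⁻¹) (g * b * g⁻¹) := by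
  intro h'
  apply h
  have e1 : g * a * g⁻¹ * (g * b * g⁻¹) = g * (a * b) * g⁻¹ := by group
  have e2 : g * b * g⁻¹ * (g * a * g⁻¹) = g * (b * a) * g⁻¹ := by group
  rw [e1, e2] at h'
  exact mul_left_cancel (mul_right_cancel h')

private theorem nc_symm {a b : H} (h : Nc a b) : Nc b a := fun h' => h h'.symm

/-- `a` crossed and `x` a conjugate of a cusp do not commute. -/
private theorem nc_cusp {D : Subgroup H} {Sp : H → H → H → Prop} {l r : H → H → ℝ}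
    {sd : H → H → Prop} {γ π : H} (hG : Geo D Sp l r sd) (hS : SimC D Sp γ π) {h a : H}
    (hh : h ∈ D) (ha : a ∈ D) (hp : Hp D Sp a) : Nc a (h * π * h⁻¹) := by
  intro hc
  obtain ⟨e, he, hae⟩ := hp
  have hx : h * π * h⁻¹ ≠ 1 := by
    intro h1
    apply hS.one
    have : π = h⁻¹ * (h * π * h⁻¹) * h := by group
    rw [this, h1]; group
  have h2 := hG.crcom a ha e he _ (mem_conj hh hS.memπ) hae hc hx
  have h3 := cr_conj' hG.toGF (D.inv_mem hh) h2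
  have e1 : h⁻¹ * (h * π * h⁻¹) * h⁻¹⁻¹ = π := by group
  rw [e1] at h3
  exact (hS.par _ (mem_conj (D.inv_mem hh) he)).1 h3

/-- PACKET R3. -/
theorem goalR3 : GoalR3 := by
  intro H _ D Sp l r sd γ π γ' ν hG hS hS' hD hB hν hpν hNν hNν' g1 g2 f4
  -- preliminary facts
  have sideD : ∀ a ∈ D, ∀ b ∈ D, ∀ c ∈ D, Hp D Sp a → Nc a b → Nc a c →
      (Sp a b c ↔ (sd a b ↔ ¬ sd a c)) := hG.side
  have n1 := hG.n1
  have disj : ∀ g ∈ D, ∀ g' ∈ D, ¬ Cr Sp (g * γ * g⁻¹) (g' * γ' * g'⁻¹) ∧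
      Nc (g * γ * g⁻¹) (g' * γ' * g'⁻¹) := by
    intro g hg g' hg'
    have hk := hD (g⁻¹ * g') (D.mul_mem (D.inv_mem hg) hg')
    have e1 : g⁻¹ * g' * γ' * (g⁻¹ * g')⁻¹ = g⁻¹ * (g' * γ' * g'⁻¹) * g⁻¹⁻¹ := by group
    have e2 : g⁻¹ * (g * γ * g⁻¹) * g⁻¹⁻¹ = γ := by group
    have e3 : g * (g⁻¹ * (g' * γ' * g'⁻¹) * g⁻¹⁻¹) * g⁻¹ = g' * γ' * g'⁻¹ := by group
    rw [e1] at hk
    constructor
    · intro hc
      have := cr_conj' hG.toGF (D.inv_mem hg) hc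
      rw [e2] at this
      exact hk.1 this
    · have := nc_conj (g := g) hk.2
      rw [e3] at this
      exact this
  have disjS : ∀ g ∈ D, ∀ g' ∈ D, ¬ Cr Sp (g' * γ' * g'⁻¹) (g * γ * g⁻¹) := by
    intro g hg g' hg' hc
    exact (disj g hg g' hg').1 (hG.symm _ (mem_conj hg' hS'.mem) _ (mem_conj hg hS.mem) hc)
  have ncν : ∀ g ∈ D, ∀ h ∈ D, Nc (g * γ * g⁻¹) (h * ν * h⁻¹) := by
    intro g hg h hh
    have := nc_conj (g := h) (hNν (h⁻¹ * g) (D.mul_mem (D.inv_mem hh) hg))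
    have e : h * (h⁻¹ * g * γ * (h⁻¹ * g)⁻¹) * h⁻¹ = g * γ * g⁻¹ := by group
    rw [e] at this
    exact this
  have ncν' : ∀ g ∈ D, ∀ h ∈ D, Nc (g * γ' * g⁻¹) (h * ν * h⁻¹) := by
    intro g hg h hh
    have := nc_conj (g := h) (hNν' (h⁻¹ * g) (D.mul_mem (D.inv_mem hh) hg))
    have e : h * (h⁻¹ * g * γ' * (h⁻¹ * g)⁻¹) * h⁻¹ = g * γ' * g⁻¹ := by group
    rw [e] at this
    exact this
  have hpL : ∀ g ∈ D, Hp D Sp (g * γ * g⁻¹) := fun g hg => hp_conj hG.toGF hg hS.hp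
  have hpL' : ∀ g ∈ D, Hp D Sp (g * γ' * g⁻¹) := fun g hg => hp_conj hG.toGF hg hS'.hp
  have ncπ : ∀ g ∈ D, ∀ h ∈ D, Nc (g * γ * g⁻¹) (h * π * h⁻¹) := fun g hg h hh =>
    nc_cusp hG hS hh (mem_conj hg hS.mem) (hpL g hg)
  have ncπ' : ∀ g ∈ D, ∀ h ∈ D, Nc (g * γ' * g⁻¹) (h * π * h⁻¹) := fun g hg h hh =>
    nc_cusp hG hS' hh (mem_conj hg hS'.mem) (hpL' g hg)
  have hone : (1 : H) ∈ D := D.one_mem
  have eγ' : (1 : H) * γ' * 1⁻¹ = γ' := by group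
  have eπ : (1 : H) * π * 1⁻¹ = π := by group
  have hmγ' : γ' ∈ D := hS'.mem
  -- step A
  unfold Bt at hB
  push Not at hB
  obtain ⟨h0, hh0, hx0⟩ := hB
  obtain ⟨h, hh, A1, A2⟩ := g2
  obtain ⟨g, hg, hgs⟩ := g1 (h⁻¹ * h0) (D.mul_mem (D.inv_mem hh) hh0)
  have hgs' := hG.conj h hh _ _ _ hgs
  have e1 : h * (g * γ * g⁻¹) * h⁻¹ = (h * g) * γ * (h * g)⁻¹ := by group
  have e2 : h * (h⁻¹ * h0 * π * (h⁻¹ * h0)⁻¹) * h⁻¹ = h0 * π * h0⁻¹ := by group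
  rw [e1, e2] at hgs'
  set g0 := h * g with hg0
  have hg0D : g0 ∈ D := D.mul_mem hh hg
  set lam := g0 * γ * g0⁻¹ with hlam
  set μ := h * ν * h⁻¹ with hμ
  set x0 := h0 * π * h0⁻¹ with hx0d
  have hlamD : lam ∈ D := mem_conj hg0D hS.mem
  have hμD : μ ∈ D := mem_conj hh hν
  have hx0D : x0 ∈ D := mem_conj hh0 hS.memπ
  have hplam : Hp D Sp lam := hpL g0 hg0D
  have nlx0 : Nc lam x0 := ncπ g0 hg0D h0 hh0
  have nlμ : Nc lam μ := ncν g0 hg0D h hh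
  have nlγ' : Nc lam γ' := by
    have := (disj g0 hg0D 1 hone).2
    rwa [eγ'] at this
  have nγ'μ : Nc γ' μ := by
    have := ncν' 1 hone h hh
    rwa [eγ'] at this
  have nγ'π : Nc γ' π := by
    have := ncπ' 1 hone 1 hone
    rwa [eγ', eπ] at this
  have cγ'l : ¬ Cr Sp γ' lam := by
    have := disjS g0 hg0D 1 hone
    rwa [eγ'] at this
  have B1 : Sp lam γ' μ := by
    have s1 := sideD lam hlamD x0 hx0D γ' hmγ' hplam nlx0 nlγ'
    have s2 := sideD lam hlamD x0 hx0D μ hμD hplam nlx0 nlμ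
    have s3 := sideD lam hlamD γ' hmγ' μ hμD hplam nlγ' nlμ
    have := hx0 g0 hg0D
    tauto
  have B1' : Sp lam μ γ' := by
    have s3 := sideD lam hlamD γ' hmγ' μ hμD hplam nlγ' nlμ
    have s4 := sideD lam hlamD μ hμD γ' hmγ' hplam nlμ nlγ'
    tauto
  have B2 : ¬ Sp γ' μ lam := n1 γ' hmγ' lam hlamD μ hμD hS'.hp hplam cγ'l (nc_symm nlγ') nγ'μ
    nlμ B1'
  have B3 : Sp γ' lam π := by
    have s1 := sideD γ' hmγ' μ hμD lam hlamD hS'.hp nγ'μ (nc_symm nlγ')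
    have s2 := sideD γ' hmγ' μ hμD π hS.memπ hS'.hp nγ'μ nγ'π
    have s3 := sideD γ' hmγ' lam hlamD π hS.memπ hS'.hp (nc_symm nlγ') nγ'π
    tauto
  -- the claim
  have claim : ∀ g' ∈ D, Nc (g' * γ' * g'⁻¹) γ' → ¬ Sp (g' * γ' * g'⁻¹) lam γ' := by
    intro g' hg' hn hsp
    have hA2 := A2 g' hg' hn
    have cll' := (disj g0 hg0D g' hg').1
    have nll' := (disj g0 hg0D g' hg').2
    have hl'D : g' * γ' * g'⁻¹ ∈ D := mem_conj hg' hmγ'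
    have hpl' : Hp D Sp (g' * γ' * g'⁻¹) := hpL' g' hg'
    have nl'μ : Nc (g' * γ' * g'⁻¹) μ := ncν' g' hg' h hh
    rw [← hlam] at cll' nll'
    generalize g' * γ' * g'⁻¹ = l' at *
    have t1 := sideD l' hl'D lam hlamD γ' hmγ' hpl' (nc_symm nll') hn
    have t2 := sideD l' hl'D μ hμD γ' hmγ' hpl' nl'μ hn
    have t3 := sideD l' hl'D γ' hmγ' lam hlamD hpl' hn (nc_symm nll')
    have t4 := sideD l' hl'D μ hμD lam hlamD hpl' nl'μ (nc_symm nll')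
    have u1 : ¬ Sp lam γ' l' := n1 lam hlamD l' hl'D γ' hmγ' hplam hpl' cll' nll' nlγ' hn
      (by tauto)
    have u2 : ¬ Sp lam μ l' := n1 lam hlamD l' hl'D μ hμD hplam hpl' cll' nll' nlμ nl'μ
      (by tauto)
    have v1 := sideD lam hlamD γ' hmγ' l' hl'D hplam nlγ' nll'
    have v2 := sideD lam hlamD μ hμD l' hl'D hplam nlμ nll'
    have v3 := sideD lam hlamD γ' hmγ' μ hμD hplam nlγ' nlμ
    tauto
  -- conclusion
  intro k hk
  have hgkD : g0 * k ∈ D := D.mul_mem hg0D hk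
  have ex : (g0 * k) * π * (g0 * k)⁻¹ = g0 * (k * π * k⁻¹) * g0⁻¹ := by group
  have key : ∃ g' ∈ D, Sp (g' * γ' * g'⁻¹) ((g0 * k) * π * (g0 * k)⁻¹) lam := by
    by_contra hno
    push Not at hno
    have hxD : (g0 * k) * π * (g0 * k)⁻¹ ∈ D := mem_conj hgkD hS.memπ
    have w1 := hno 1 hone
    rw [eγ'] at w1
    have nγ'x : Nc γ' ((g0 * k) * π * (g0 * k)⁻¹) := by
      have := ncπ' 1 hone (g0 * k) hgkD
      rwa [eγ'] at this
    have s1 := sideD γ' hmγ' _ hxD lam hlamD hS'.hp nγ'x (nc_symm nlγ')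
    have s2 := sideD γ' hmγ' lam hlamD π hS.memπ hS'.hp (nc_symm nlγ') nγ'π
    have s3 := sideD γ' hmγ' _ hxD π hS.memπ hS'.hp nγ'x nγ'π
    have w2 : Sp γ' ((g0 * k) * π * (g0 * k)⁻¹) π := by tauto
    obtain ⟨g', hg', hn, hsp⟩ := f4 (g0 * k) hgkD w2
    have hc := claim g' hg' hn
    have hno' := hno g' hg'
    have hl'D : g' * γ' * g'⁻¹ ∈ D := mem_conj hg' hmγ'
    have hpl' : Hp D Sp (g' * γ' * g'⁻¹) := hpL' g' hg'
    have nll' := (disj g0 hg0D g' hg').2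
    rw [← hlam] at nll'
    have nx := ncπ' g' hg' (g0 * k) hgkD
    have t1 := sideD _ hl'D lam hlamD γ' hmγ' hpl' (nc_symm nll') hn
    have t2 := sideD _ hl'D _ hxD γ' hmγ' hpl' nx hn
    have t3 := sideD _ hl'D _ hxD lam hlamD hpl' nx (nc_symm nll')
    tauto
  obtain ⟨g', hg', hsp⟩ := key
  refine ⟨g0⁻¹ * g', D.mul_mem (D.inv_mem hg0D) hg', ?_⟩
  have := hG.conj g0⁻¹ (D.inv_mem hg0D) _ _ _ hsp
  have z1 : g0⁻¹ * (g' * γ' * g'⁻¹) * g0⁻¹⁻¹ = g0⁻¹ * g' * γ' * (g0⁻¹ * g')⁻¹ := by group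
  have z2 : g0⁻¹ * (g0 * k * π * (g0 * k)⁻¹) * g0⁻¹⁻¹ = k * π * k⁻¹ := by group
  have z3 : g0⁻¹ * lam * g0⁻¹⁻¹ = γ := by rw [hlam]; group
  rw [z1, z2, z3] at this
  exact this

end Pool.Agent.Helper24.LN
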